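import Pool.Agent.H44.Cac.Main

/-!
# Cactus graphs with bondage number three

All definitions used in the statement (`Dominates`, `domNum`, `bondage`, `Nonsep`, `IsBlock`,
`IsCactus`, `blocks`, `InN`, `Alternating`, `Spread`, `Certificate`) are in
`Pool.Agent.H44.Cac.Defs`.

A nontrivial cactus graph has bondage number three if and only if it has a certificate: a set `K`
of vertices, labels `m w B` at the vertices outside `K` and charges `q x B` at the vertices of `K`,
for every block `B` containing the vertex, with the following properties.

* The labels at a vertex outside `K` sum up to at least three, and its neighbours in `K` lie in one
  block with it.
* Charges are at most two, and a vertex of `K` with a charge two has no other positive charge.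
* `m w B` is at most the number of neighbours of `w` in `B` that lie in `N[K]`.
* No bridge joins two vertices of `K`; a cycle inside of `K` has length `1` modulo `3` and all its
  charges are at least one; a cycle meeting `K` and its complement is alternating or spread.
-/

open Pool.Agent.H44.Cac

namespace Pool.Agent.Results.MP_ac8499_co.BondageThree

/-- Characterisation of the nontrivial cactus graphs with bondage number three. -/
theorem result {V : Type*} [Fintype V] (G : SimpleGraph V) (hG : IsCactus G)
    (hV : Nontrivial V) :
    bondage G = 3 ↔ ∃ (K : Finset V) (m q : V → Finset V → ℕ), Certificate G K m q :=
  main_theorem G hG hV

end Pool.Agent.Results.MP_ac8499_co.BondageThree
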